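import Pool.Agent.Run7.h34.DR.Main

/-!
# Entire curves in varieties which are divisibly ramified over the coordinate hyperplanes

Let `V = {F = 0}` be a closed subset of `P^n`, given by forms with at most `s` monomials each, and
let `m ≥ (s - 1) ^ 2`, `m ≥ 1`. Let `X` be a closed subset of `P^N × V` (so a projective variety with
any morphism to `V`, possibly reducible and singular), such that

* (`Divisible X m`) `X` is divisibly ramified over the coordinate hyperplanes of `P^n`: for every germ
  of a curve in `X` the contact orders with the hyperplanes which do not contain it are divisible by
  `m`. For example, all varieties with a morphism to the Fermat cover `{F (x_0 ^ m, …, x_n ^ m) = 0}`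
  have this property, and the varieties for which the pullbacks of the hyperplanes are `m` times a
  Cartier divisor. The morphism may have any further ramification, in any place.
* (`LowFibres X`) the preimages in `X` of curves and points of `P^n` have dimension at most one. For
  example, the morphism is finite, or `X` is an irreducible surface and the morphism is generically
  finite.

**Theorem.** (1) For every nonconstant entire curve `(u, v)` in `X` one of the following is true.

* (`Swept F v`) All points of `v` lie on toric surfaces in `V` of the same kind: there is a
  two-dimensional torus of diagonal matrices whose orbits through all points `v z` lie in `V` (and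
  are surfaces).
* The Zariski closure of the entire curve in `X` is a curve, and it is the image of a nonconstant
  morphism from an elliptic curve (`FromElliptic`).

(2) If `V` contains no toric surface (`ToricSurface F`: the closure of an orbit, of dimension two, of a
torus of diagonal matrices) and if all morphisms from elliptic curves to `X` are constant (in
particular, if all morphisms from abelian varieties to `X` are constant) then `X` is Brody
hyperbolic: it has no nonconstant entire curve. This is Q1 for `X`.

The number `m` depends only on the number of the monomials in the equations, not on `X`, the
degree of `X` over `V`, or the branch divisor. An irreducible surface `V` contains no toric surface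
unless it is itself the closure of an orbit of a torus of diagonal matrices; so for every other
surface `V` the theorem answers Q1 for all surfaces over `V` which are divisibly ramified of order
`m`. For varieties `V` of larger dimension the condition is satisfied if the coefficients of the
equations are general, and there are enough of them.

The proof. By the condition on the contact orders the coordinates of `v` are `m`-th powers `v_j =
h_j ^ m` of entire functions. By the theorem of Green on sums of powers of entire functions each
equation of `V` is satisfied by the terms in which the monomials `h ^ α` have the same logarithmic
derivative at a given point `z`. If the logarithmic derivatives of two quotients `h_i / h_j` and `h_k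
/ h_l` at `z` are linearly independent over the rational numbers this gives two integral weights, and
a toric surface in `V` through `v z`. If this happens only for countably many `z`, the quotients are
multiplicatively dependent, so the field generated by the ratios of the coordinates of `v` has
transcendence degree one, and therefore also the one for `(u, v)`. An algebraic curve with a
nonconstant entire curve has genus at most one.
-/

set_option autoImplicit false

namespace Pool.Agent.Results.MP_b9fedf_ag.DivisiblyRamified

open MvPolynomial Run7.h34.DR Pool.Agent.W602.Cov.R

/-- **Entire curves in projective varieties which are divisibly ramified over the coordinate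
hyperplanes.** Let `F = 0` in `P^n` be given by forms with at most `s` monomials, `m ≥ (s - 1) ^ 2`,
and let `X` be a closed subset of `P^N × {F = 0}` which is divisibly ramified of order `m` over the
coordinate hyperplanes, and such that the preimages of curves and points have dimension at most
one. (1) For every entire curve `(u, v)` in `X` there is a two-dimensional torus of diagonal matrices
whose orbits through all `v z` are contained in `F = 0`, or the Zariski closure of `(u, v)` is the
image of a nonconstant morphism `(a, b)` from an elliptic curve. (2) If `F = 0` contains no toric
surface and all morphisms from elliptic curves to `X` are constant, then there is no nonconstant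
entire curve in `X`. -/
theorem result {N n m s : ℕ} {ι : Type} (hm : 0 < m) (hs : (s - 1) ^ 2 ≤ m)
    (F : ι → MvPolynomial (Fin (n + 1)) ℂ) (hF : ∀ e, (F e).support.card ≤ s) (X : BiSet N n)
    (hV : ∀ (u : Fin (N + 1) → ℂ) (v : Fin (n + 1) → ℂ), X.Mem u v → ∀ e, eval v (F e) = 0)
    (hX : Divisible X m) (hL : LowFibres X) :
    (∀ u v, X.EntireCurve u v → Swept F v ∨
      ∃ (E : Type) (_ : Field E) (_ : Algebra ℂ E) (a : Fin (N + 1) → E) (b : Fin (n + 1) → E),
        FromElliptic X E a b ∧ ∀ (G : BiPoly N n) (D D' : ℕ), BiHom G D D' →
          (aeval (Sum.elim a b) G = 0 ↔ ∀ z, eval (Sum.elim (u z) (v z)) G = 0)) ∧
    (¬ ToricSurface F → NoElliptic X → ∀ u v, ¬ X.EntireCurve u v) := by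
  have h1 : ∀ u v, X.EntireCurve u v → Swept F v ∨
      ∃ (E : Type) (_ : Field E) (_ : Algebra ℂ E) (a : Fin (N + 1) → E) (b : Fin (n + 1) → E),
        FromElliptic X E a b ∧ ∀ (G : BiPoly N n) (D D' : ℕ), BiHom G D D' →
          (aeval (Sum.elim a b) G = 0 ↔ ∀ z, eval (Sum.elim (u z) (v z)) G = 0) := by
    intro u v huv
    by_cases hT : Swept F v
    · exact Or.inl hT
    · exact Or.inr (main hm hs hF hX hV hL huv hT)
  refine ⟨h1, fun hT hE u v huv => ?_⟩
  rcases h1 u v huv with h2 | ⟨E, _, _, a, b, h2, -⟩
  · exact hT (h2.toric huv.diffv)
  · exact hE E a b h2

end Pool.Agent.Results.MP_b9fedf_ag.DivisiblyRamified
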