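import Pool.Agent.Run7.h493.TS.Fib

/-!
MP_b9fedf_ag, Q1: fibre spaces over arbitrary projective varieties which are highly ramified over
Zariski-general hypersurface sections. For these varieties question Q1 is a question on the fibres.

Let `V` be a closed subset of `ℙ ^ M`, of dimension at most `n`, given by forms over a subfield `k`
of the complex numbers; let `q ≥ n + 2`, and let `d_1, …, d_q` be positive integers of which at most
`2 (q - n - 1)` are equal to one (for example: all `d_b ≥ 2`).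

THEOREM. There are a nonzero polynomial `Φ` with coefficients in `k` in the coefficients of `q` forms
of degrees `d_1, …, d_q`, and a number `m₀`, with the following property. Let `F_1, …, F_q` be
complex forms of degrees `d_1, …, d_q` such that `Φ (F) ≠ 0`, and let `X` be any closed subset of
`ℙ ^ N × V` (of any dimension, with any singularities) which is ramified to order at least `m₀` over
the hypersurfaces: if a germ of a holomorphic curve in `X` meets some of the hypersurfaces `F_b = 0`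
which do not contain it, then it meets one of them with a multiplicity `≥ m₀`. Then

(1) every holomorphic map from `ℂ ^ g`, for any `g ≥ 1`, to `X` has its image in a fibre of the
projection from `X` to `V`; so this is true for entire curves, and for holomorphic maps from complex
tori;

(2) `X` admits no nonconstant holomorphic map from a complex torus if and only if this is true for
each fibre `X_v`, `v ∈ V`, a closed subset of `ℙ ^ N`; and `X` is Brody hyperbolic if and only if all
fibres `X_v` are Brody hyperbolic. So, if Q1 is true for the fibres, then Q1 is true for `X`;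

(3) if the fibres are finite, then `X` is Brody hyperbolic, and so Q1 is true for `X`; `X` may be a
finite cover of any closed subset of `V`.

(4) (example) `X` is ramified to order at least `m₀` if, for some `m ≥ m₀ ∑ d_b`, the functions
`F_b ^ {d_c} / F_c ^ {d_b}` have regular `m`-th roots on the part `F_c ≠ 0` of `X`.

The numbers `m₀` and the polynomial `Φ` depend only on `V` and the degrees, and not on `X`.

The proof: if an entire curve in `X` is not constant in `V`, its composition with the exponential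
function contradicts the second main theorem, truncated to level one and with a constant which
depends only on `V` and the degrees (`Run7.h493.TS.tsm`).
-/

set_option autoImplicit false

namespace Pool.Agent.Results.MP_b9fedf_ag.FibreSpaces

open MvPolynomial Filter Topology

variable {k : Type} [Field k] {M N n q : ℕ}

/-- The closed subset of `ℙ ^ M` given by the forms in `V` has dimension at most `n`: there are
`n + 1` linear forms without common zero on it. -/
def DimLE [Algebra k ℂ] (V : Set (MvPolynomial (Fin (M + 1)) k)) (n : ℕ) : Prop :=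
  ∃ ℓ : Fin (n + 1) → MvPolynomial (Fin (M + 1)) k, (∀ j, (ℓ j).IsHomogeneous 1) ∧
    ∀ y : Fin (M + 1) → ℂ, (∀ H ∈ V, aeval y H = 0) → (∀ j, aeval y (ℓ j) = 0) → y = 0

/-- The numerical condition. -/
def Degrees (n : ℕ) {q : ℕ} (d : Fin q → ℕ) : Prop :=
  (∀ b, 1 ≤ d b) ∧ n + 2 ≤ q ∧ (Finset.univ.filter fun b => d b = 1).card ≤ 2 * (q - n - 1)

/-- The indices of the coefficients of `q` forms of degrees `d b` in `M + 1` variables. -/
abbrev Index (M : ℕ) {q : ℕ} (d : Fin q → ℕ) : Type :=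
  (b : Fin q) × {β : Fin (M + 1) →₀ ℕ // β.degree = d b}

/-- `F` is a family of forms of degrees `d b`, and `Φ (F) ≠ 0`. -/
def General [Algebra k ℂ] {d : Fin q → ℕ} (Φ : MvPolynomial (Index M d) k)
    (F : Fin q → MvPolynomial (Fin (M + 1)) ℂ) : Prop :=
  (∀ b, (F b).IsHomogeneous (d b)) ∧ aeval (fun s : Index M d => coeff s.2.1 (F s.1)) Φ ≠ 0

/-- Polynomials in the homogeneous coordinates of the points of `ℙ ^ N × ℙ ^ M`. -/
abbrev BiPoly (N M : ℕ) : Type := MvPolynomial (Fin (N + 1) ⊕ Fin (M + 1)) ℂ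

/-- The value of `P` at `(u, x)`. -/
noncomputable def at' (P : BiPoly N M) (u : Fin (N + 1) → ℂ) (x : Fin (M + 1) → ℂ) : ℂ :=
  eval (Sum.elim u x) P

/-- `P` is bihomogeneous of bidegree `(a, c)`. -/
def BiHom (P : BiPoly N M) (a c : ℕ) : Prop :=
  ∀ (s t : ℂ) (u : Fin (N + 1) → ℂ) (x : Fin (M + 1) → ℂ),
    at' P (s • u) (t • x) = s ^ a * t ^ c * at' P u x

/-- `(u, x)` are homogeneous coordinates of a point of the closed subset `X` of `ℙ ^ N × V` given by
the bihomogeneous polynomials in `I`. -/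
def Mem [Algebra k ℂ] (V : Set (MvPolynomial (Fin (M + 1)) k)) (I : Set (BiPoly N M))
    (u : Fin (N + 1) → ℂ) (x : Fin (M + 1) → ℂ) : Prop :=
  u ≠ 0 ∧ x ≠ 0 ∧ (∀ H ∈ V, aeval x H = 0) ∧ ∀ P ∈ I, at' P u x = 0

/-- `X` is ramified to order at least `m` over the hypersurfaces `F b = 0`: if a germ of a
holomorphic curve in `X` meets some of the hypersurfaces which do not contain it, then it meets one
of them with a multiplicity at least `m`. -/
def Ramified [Algebra k ℂ] (V : Set (MvPolynomial (Fin (M + 1)) k)) (I : Set (BiPoly N M))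
    (F : Fin q → MvPolynomial (Fin (M + 1)) ℂ) (m : ℕ) : Prop :=
  ∀ (u : ℂ → Fin (N + 1) → ℂ) (x : ℂ → Fin (M + 1) → ℂ) (z : ℂ), AnalyticAt ℂ u z →
    AnalyticAt ℂ x z → (∀ᶠ w in 𝓝 z, Mem V I (u w) (x w)) →
    (∃ b, (¬ ∀ᶠ w in 𝓝 z, eval (x w) (F b) = 0) ∧ eval (x z) (F b) = 0) →
    ∃ b, (¬ ∀ᶠ w in 𝓝 z, eval (x w) (F b) = 0) ∧
      (m : ℕ∞) ≤ analyticOrderAt (fun w => eval (x w) (F b)) z

/-- `(U, Y)` is a holomorphic map from `ℂ ^ g` to `X`, given by homogeneous coordinates without common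
zeros. -/
structure HolMap [Algebra k ℂ] (V : Set (MvPolynomial (Fin (M + 1)) k)) (I : Set (BiPoly N M))
    {g : ℕ} (U : (Fin g → ℂ) → Fin (N + 1) → ℂ) (Y : (Fin g → ℂ) → Fin (M + 1) → ℂ) : Prop where
  hU : Differentiable ℂ U
  hY : Differentiable ℂ Y
  mem : ∀ z, Mem V I (U z) (Y z)

/-- The map to the projective space is constant. -/
def Const {Z : Type} (G : Z → Fin (N + 1) → ℂ) : Prop := ∀ z w, ∃ c : ℂ, G w = c • G z

/-- The map from `ℂ ^ g` to the projective space is given by a map from `ℂ ^ g / L`. -/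
def Periodic {g : ℕ} (L : AddSubgroup (Fin g → ℂ)) (G : (Fin g → ℂ) → Fin (N + 1) → ℂ) : Prop :=
  ∀ z, ∀ l ∈ L, ∃ c : ℂ, G (z + l) = c • G z

/-- `L` is a lattice in `ℂ ^ g`. -/
def Lattice' {g : ℕ} (L : AddSubgroup (Fin g → ℂ)) : Prop :=
  DiscreteTopology L ∧ Submodule.span ℝ (L : Set (Fin g → ℂ)) = ⊤

/-- Every holomorphic map from every complex torus to `X` is constant. -/
def TorusFree [Algebra k ℂ] (V : Set (MvPolynomial (Fin (M + 1)) k)) (I : Set (BiPoly N M)) : Prop :=
  ∀ (g : ℕ) (L : AddSubgroup (Fin g → ℂ)), Lattice' L → ∀ U Y, HolMap V I U Y → Periodic L U →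
    Periodic L Y → Const U ∧ Const Y

/-- `X` is Brody hyperbolic. -/
def Brody [Algebra k ℂ] (V : Set (MvPolynomial (Fin (M + 1)) k)) (I : Set (BiPoly N M)) : Prop :=
  ∀ (u : ℂ → Fin (N + 1) → ℂ) (x : ℂ → Fin (M + 1) → ℂ), Differentiable ℂ u → Differentiable ℂ x →
    (∀ z, Mem V I (u z) (x z)) → Const u ∧ Const x

/-- The fibre `X_v` over the point `v`, a closed subset of `ℙ ^ N`: `u` are homogeneous coordinates
of one of its points. -/
def MemFibre [Algebra k ℂ] (V : Set (MvPolynomial (Fin (M + 1)) k)) (I : Set (BiPoly N M))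
    (v : Fin (M + 1) → ℂ) (u : Fin (N + 1) → ℂ) : Prop :=
  u ≠ 0 ∧ ∀ P ∈ I, at' P u v = 0

/-- Every holomorphic map from every complex torus to the fibre `X_v` is constant. -/
def FibreTorusFree [Algebra k ℂ] (V : Set (MvPolynomial (Fin (M + 1)) k)) (I : Set (BiPoly N M))
    (v : Fin (M + 1) → ℂ) : Prop :=
  ∀ (g : ℕ) (L : AddSubgroup (Fin g → ℂ)), Lattice' L → ∀ U : (Fin g → ℂ) → Fin (N + 1) → ℂ,
    Differentiable ℂ U → (∀ z, MemFibre V I v (U z)) → Periodic L U → Const U

/-- The fibre `X_v` is Brody hyperbolic. -/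
def FibreBrody [Algebra k ℂ] (V : Set (MvPolynomial (Fin (M + 1)) k)) (I : Set (BiPoly N M))
    (v : Fin (M + 1) → ℂ) : Prop :=
  ∀ u : ℂ → Fin (N + 1) → ℂ, Differentiable ℂ u → (∀ z, MemFibre V I v (u z)) → Const u

/-- `v` are homogeneous coordinates of a point of `V`. -/
def Point [Algebra k ℂ] (V : Set (MvPolynomial (Fin (M + 1)) k)) (v : Fin (M + 1) → ℂ) : Prop :=
  v ≠ 0 ∧ ∀ H ∈ V, aeval v H = 0

/-- The functions `F b ^ d c / F c ^ d b` have regular `m`-th roots `R / S` on the part `F c ≠ 0` of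
`X`. -/
def RegularRoots [Algebra k ℂ] (V : Set (MvPolynomial (Fin (M + 1)) k)) (I : Set (BiPoly N M))
    (d : Fin q → ℕ) (F : Fin q → MvPolynomial (Fin (M + 1)) ℂ) (m : ℕ) : Prop :=
  ∀ b c u x, Mem V I u x → eval x (F c) ≠ 0 → ∃ R S : BiPoly N M, at' S u x ≠ 0 ∧
    ∀ u' x', Mem V I u' x' →
      at' R u' x' ^ m * eval x' (F c) ^ d b = at' S u' x' ^ m * eval x' (F b) ^ d c

section Proof

open Run7.h493.TS
open Run7.h493.PS (MultiHom)
open Pool.Agent.NH29.GN (Idx Mon fv val NoZero)

theorem fv_eq {d : Fin q → ℕ} {F : Fin q → MvPolynomial (Fin (M + 1)) ℂ}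
    (hF : ∀ b, (F b).IsHomogeneous (d b)) (x : Fin (M + 1) → ℂ) (b : Fin q) :
    fv (K := ℂ) (L := ℂ) (d := d) (fun s : Idx M d => coeff s.2.1 (F s.1)) x b = eval x (F b) := by
  classical
  unfold fv
  rw [eval_eq']
  symm
  refine Finset.sum_of_injOn (fun α => if h : α.degree = d b then (⟨α, h⟩ : Mon M (d b)) else
    ⟨Finsupp.single 0 (d b), by rw [Finsupp.degree_single]⟩) ?_ ?_ ?_ ?_
  · intro α hα β hβ h
    have h1 : α.degree = d b := by
      by_contra hne
      exact (mem_support_iff.1 hα) ((hF b).coeff_eq_zero hne)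
    have h2 : β.degree = d b := by
      by_contra hne
      exact (mem_support_iff.1 hβ) ((hF b).coeff_eq_zero hne)
    simp only [dif_pos h1, dif_pos h2] at h
    exact congrArg Subtype.val h
  · intro α _
    exact Finset.mem_coe.2 (Finset.mem_univ _)
  · intro β _ hβ
    have h1 : coeff β.1 (F b) = 0 := by
      by_contra hne
      apply hβ
      exact ⟨β.1, Finset.mem_coe.2 (mem_support_iff.2 hne), by simp only [dif_pos β.2]⟩
    show algebraMap ℂ ℂ (coeff β.1 (F b)) * _ = 0
    rw [h1, map_zero, zero_mul]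
  · intro α hα
    have h1 : α.degree = d b := by
      by_contra hne
      exact (mem_support_iff.1 hα) ((hF b).coeff_eq_zero hne)
    simp only [dif_pos h1]
    rfl

theorem exists_phi [Algebra k ℂ] {V : Set (MvPolynomial (Fin (M + 1)) k)}
    (hV : ∀ H ∈ V, ∃ e, H.IsHomogeneous e) (hn : DimLE V n) {d : Fin q → ℕ} (hd : Degrees n d) :
    ∃ (Φ : MvPolynomial (Idx M d) k) (m : Fin q → ℕ), Φ ≠ 0 ∧ MultiHom Φ m ∧ AllNB k V Φ := by
  have hk : CharZero k := (algebraMap k ℂ).charZero
  obtain ⟨ℓ, hℓ, hℓ0⟩ := hn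
  have hN : NoZero V ℓ := Pool.Agent.NH29.GN.Fn.noZero_of_points (K := ℂ) hℓ0
  obtain ⟨h1, h2, h3⟩ := hd
  obtain ⟨Φ, hΦ, hB⟩ := exists_allNB k hV hℓ hN h1 (by omega) fun C hC =>
    Pool.Agent.NH29.GN.Fn.num_of_few h1 h2 (by omega) C hC
  exact exists_multi hΦ hB

theorem hh_eq {d : Fin q → ℕ} {F : Fin q → MvPolynomial (Fin (M + 1)) ℂ}
    (hF : ∀ b, (F b).IsHomogeneous (d b)) (x : ℂ → Fin (M + 1) → ℂ) (b : Fin q) :
    hh (kt fun s : Idx M d => coeff s.2.1 (F s.1)) (fun i z => x z i) b =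
      fun z => eval (x z) (F b) := by
  funext z
  exact fv_eq hF (x z) b

theorem an_at {u : ℂ → Fin (N + 1) → ℂ} {x : ℂ → Fin (M + 1) → ℂ} {z : ℂ} (hu : AnalyticAt ℂ u z)
    (hx : AnalyticAt ℂ x z) (P : BiPoly N M) : AnalyticAt ℂ (fun z => at' P (u z) (x z)) z := by
  unfold at'
  induction P using MvPolynomial.induction_on with
  | C a => simp only [eval_C]; exact analyticAt_const
  | add P Q hP hQ => simp only [map_add]; exact hP.fun_add hQ
  | mul_X P i hP =>
    simp only [map_mul, eval_X]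
    refine hP.fun_mul ?_
    rcases i with i | i
    · exact (analyticAt_pi_iff.1 hu) i
    · exact (analyticAt_pi_iff.1 hx) i

theorem an_form {x : ℂ → Fin (M + 1) → ℂ} {z : ℂ} (hx : AnalyticAt ℂ x z)
    (P : MvPolynomial (Fin (M + 1)) ℂ) : AnalyticAt ℂ (fun z => eval (x z) P) z := by
  induction P using MvPolynomial.induction_on with
  | C a => simp only [eval_C]; exact analyticAt_const
  | add P Q hP hQ => simp only [map_add]; exact hP.fun_add hQ
  | mul_X P i hP =>
    simp only [map_mul, eval_X]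
    exact hP.fun_mul ((analyticAt_pi_iff.1 hx) i)

/-- the entire functions: local and global zeros -/
theorem loc_iff {g : ℂ → ℂ} (hg : Differentiable ℂ g) (z : ℂ) :
    (¬ ∀ᶠ w in 𝓝 z, g w = 0) ↔ ∃ w, g w ≠ 0 := by
  constructor
  · intro h
    by_contra hcon
    push Not at hcon
    exact h (Eventually.of_forall hcon)
  · rintro ⟨w, hw⟩ h
    have h3 : AnalyticOnNhd ℂ g Set.univ := fun z _ => hg.analyticAt z
    exact hw (h3.eqOn_zero_of_preconnected_of_eventuallyEq_zero isPreconnected_univ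
      (Set.mem_univ z) h (Set.mem_univ w))

theorem diff_pi {x : ℂ → Fin (M + 1) → ℂ} (hx : Differentiable ℂ x)
    (P : MvPolynomial (Fin (M + 1)) ℂ) : Differentiable ℂ fun z => eval (x z) P := fun z =>
  (an_form (hx.analyticAt z) P).differentiableAt

/-- entire curves are in the fibres -/
theorem const_entire [Algebra k ℂ] {V : Set (MvPolynomial (Fin (M + 1)) k)} {d : Fin q → ℕ}
    {Φ : MvPolynomial (Idx M d) k} {m₀ : ℕ}
    (hm₀ : ∀ t : Idx M d → ℂ, aeval t Φ ≠ 0 → ∀ f : Fin (M + 1) → ℂ → ℂ,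
      (∀ i, Differentiable ℂ (f i)) → (∀ z, ∃ i, f i z ≠ 0) →
      (∀ z, ∀ H ∈ V, aeval (fun i => f i z) H = 0) →
      (∀ z, (∃ b, (∃ w, hh (kt t) f b w ≠ 0) ∧ hh (kt t) f b z = 0) →
        ∃ b, (∃ w, hh (kt t) f b w ≠ 0) ∧ (m₀ : ℕ∞) ≤ analyticOrderAt (hh (kt t) f b) z) →
      ∀ z w i j, f i z * f j w = f j z * f i w)
    {F : Fin q → MvPolynomial (Fin (M + 1)) ℂ} (hF : General Φ F) {I : Set (BiPoly N M)}
    (hR : Ramified V I F m₀) {u : ℂ → Fin (N + 1) → ℂ} {x : ℂ → Fin (M + 1) → ℂ}
    (hu : Differentiable ℂ u) (hx : Differentiable ℂ x) (hmem : ∀ z, Mem V I (u z) (x z)) :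
    Const x := by
  have h3 := hm₀ (fun s => coeff s.2.1 (F s.1)) hF.2 (fun i z => x z i)
    (fun i => differentiable_pi.1 hx i) (fun z => Function.ne_iff.1 (hmem z).2.1)
    (fun z => (hmem z).2.2.1) (fun z hz => by
      simp only [hh_eq hF.1] at hz ⊢
      obtain ⟨b, hb, hbz⟩ := hz
      obtain ⟨b', hb', h1⟩ := hR u x z (hu.analyticAt z) (hx.analyticAt z)
        (Eventually.of_forall hmem) ⟨b, (loc_iff (diff_pi hx (F b)) z).2 hb, hbz⟩
      exact ⟨b', (loc_iff (diff_pi hx (F b')) z).1 hb', h1⟩)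
  intro w z
  obtain ⟨j, hj⟩ := Function.ne_iff.1 (hmem w).2.1
  refine ⟨x z j / x w j, ?_⟩
  funext i
  have h4 := h3 z w i j
  have hj' : x w j ≠ 0 := hj
  rw [Pi.smul_apply, smul_eq_mul]
  field_simp
  linear_combination h4

theorem scale_mem [Algebra k ℂ] {V : Set (MvPolynomial (Fin (M + 1)) k)} {I : Set (BiPoly N M)}
    (hI : ∀ P ∈ I, ∃ a e, BiHom P a e) {u : Fin (N + 1) → ℂ} {v x : Fin (M + 1) → ℂ} {c : ℂ}
    (h : Mem V I u x) (hx : x = c • v) : MemFibre V I v u := by
  refine ⟨h.1, fun P hP => ?_⟩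
  obtain ⟨a, e, hae⟩ := hI P hP
  have hc : c ≠ 0 := by
    rintro rfl
    exact h.2.1 (by rw [hx, zero_smul])
  have h1 := hae 1 c u v
  rw [one_smul, ← hx, h.2.2.2 P hP, one_pow, one_mul] at h1
  exact (mul_eq_zero.1 h1.symm).resolve_left (pow_ne_zero _ hc)

end Proof

/-- There are a nonzero polynomial `Φ` and a number `m₀` such that for all forms `F` with
`Φ (F) ≠ 0` and all closed subsets `X` of `ℙ ^ N × V`, given by bihomogeneous polynomials `I`:

(A) if `X` is ramified to order at least `m₀` over the hypersurfaces `F b = 0`, then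

(1) for every holomorphic map `(U, Y)` from `ℂ ^ g` to `X`, `Y` is constant;

(2) `X` admits no nonconstant holomorphic maps from complex tori if and only if this is true for all
fibres `X_v`, and `X` is Brody hyperbolic if and only if all fibres are Brody hyperbolic; so, if
for each fibre the first property implies the second one, then this is also true for `X`;

(3) if the fibres are finite, then `X` is Brody hyperbolic;

(B) `X` is ramified to order at least `m₀` if the functions `F b ^ d c / F c ^ d b` have regular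
`m`-th roots on the part `F c ≠ 0` of `X`, for an `m ≥ m₀ * ∑ b, d b`. -/
theorem result [Algebra k ℂ] (V : Set (MvPolynomial (Fin (M + 1)) k))
    (hV : ∀ H ∈ V, ∃ e, H.IsHomogeneous e) (hn : DimLE V n) (d : Fin q → ℕ) (hd : Degrees n d) :
    ∃ (Φ : MvPolynomial (Index M d) k) (m₀ : ℕ), Φ ≠ 0 ∧
      ∀ F : Fin q → MvPolynomial (Fin (M + 1)) ℂ, General Φ F →
      ∀ (N : ℕ) (I : Set (BiPoly N M)), (∀ P ∈ I, ∃ a e, BiHom P a e) →
        (Ramified V I F m₀ →
          -- (1)
          (∀ (g : ℕ) (U : (Fin g → ℂ) → Fin (N + 1) → ℂ) (Y : (Fin g → ℂ) → Fin (M + 1) → ℂ),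
            HolMap V I U Y → Const Y) ∧
          -- (2)
          (TorusFree V I ↔ ∀ v, Point V v → FibreTorusFree V I v) ∧
          (Brody V I ↔ ∀ v, Point V v → FibreBrody V I v) ∧
          ((∀ v, Point V v → FibreTorusFree V I v → FibreBrody V I v) →
            TorusFree V I → Brody V I) ∧
          -- (3)
          ((∀ v, Point V v → ∃ S : Set (Fin (N + 1) → ℂ), S.Finite ∧
            ∀ u, MemFibre V I v u → ∃ s ∈ S, ∃ c : ℂ, u = c • s) → Brody V I)) ∧
        -- (B)
        ∀ m, m₀ * ∑ b, d b ≤ m → RegularRoots V I d F m → Ramified V I F m₀ := by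
  classical
  obtain ⟨Φ, mm, hΦ0, hmm, hΦ⟩ := exists_phi hV hn hd
  obtain ⟨m₀, hm₀⟩ := Run7.h493.TS.orb hmm hΦ
  refine ⟨Φ, m₀, hΦ0, fun F hF N I hI => ⟨fun hR => ?_, fun m hm hroot u x z hu hx hmem hz => ?_⟩⟩
  · have hE : ∀ (u : ℂ → Fin (N + 1) → ℂ) (x : ℂ → Fin (M + 1) → ℂ), Differentiable ℂ u →
        Differentiable ℂ x → (∀ z, Mem V I (u z) (x z)) → Const x := fun u x hu hx hmem =>
      const_entire hm₀ hF hR hu hx hmem
    have h1 : ∀ (g : ℕ) (U : (Fin g → ℂ) → Fin (N + 1) → ℂ) (Y : (Fin g → ℂ) → Fin (M + 1) → ℂ),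
        HolMap V I U Y → Const Y := by
      intro g U Y hUY z w
      have hline : Differentiable ℂ fun t : ℂ => z + t • (w - z) :=
        (differentiable_const _).add (differentiable_id.smul_const _)
      obtain ⟨c, hc⟩ := hE (fun t => U (z + t • (w - z))) (fun t => Y (z + t • (w - z)))
        (hUY.hU.comp hline) (hUY.hY.comp hline) (fun t => hUY.mem _) 0 1
      refine ⟨c, ?_⟩
      have e0 : z + (0 : ℂ) • (w - z) = z := by rw [zero_smul, add_zero]
      have e1 : z + (1 : ℂ) • (w - z) = w := by rw [one_smul, add_sub_cancel]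
      simp only [e0, e1] at hc
      exact hc
    have hpt : ∀ {u : Fin (N + 1) → ℂ} {x : Fin (M + 1) → ℂ}, Mem V I u x → Point V x := fun h =>
      ⟨h.2.1, h.2.2.1⟩
    have hback : ∀ {u : Fin (N + 1) → ℂ} {v : Fin (M + 1) → ℂ}, Point V v → MemFibre V I v u →
        Mem V I u v := fun hv h => ⟨h.1, hv.1, hv.2, h.2⟩
    have hcc : ∀ {Z : Type} (v : Fin (M + 1) → ℂ), Const (fun _ : Z => v) := fun v _ _ =>
      ⟨1, by rw [one_smul]⟩
    have ht : TorusFree V I ↔ ∀ v, Point V v → FibreTorusFree V I v := by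
      constructor
      · intro h v hv g L hL U hU hmem hper
        exact (h g L hL U (fun _ => v) ⟨hU, differentiable_const _, fun z => hback hv (hmem z)⟩ hper
          (fun z l _ => ⟨1, by rw [one_smul]⟩)).1
      · intro h g L hL U Y hUY hU hY
        have hYc := h1 g U Y hUY
        refine ⟨h (Y 0) (hpt (hUY.mem 0)) g L hL U hUY.hU (fun z => ?_) hU, hYc⟩
        obtain ⟨c, hc⟩ := hYc 0 z
        exact scale_mem hI (hUY.mem z) hc
    have hb : Brody V I ↔ ∀ v, Point V v → FibreBrody V I v := by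
      constructor
      · intro h v hv u hu hmem
        exact (h u (fun _ => v) hu (differentiable_const _) fun z => hback hv (hmem z)).1
      · intro h u x hu hx hmem
        have hxc := hE u x hu hx hmem
        refine ⟨h (x 0) (hpt (hmem 0)) u hu fun z => ?_, hxc⟩
        obtain ⟨c, hc⟩ := hxc 0 z
        exact scale_mem hI (hmem z) hc
    refine ⟨h1, ht, hb, fun hfib htor => hb.2 fun v hv => hfib v hv (ht.1 htor v hv), fun hfin =>
      hb.2 fun v hv u hu hmem => ?_⟩
    obtain ⟨S, hS, hSu⟩ := hfin v hv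
    rcases Run7.h493.TS.const_or (g := fun _ => 1) hu (fun z => (hmem z).1)
      (differentiable_const _) hS (fun z _ => hSu (u z) (hmem z)) with h | h
    · exact absurd (h 0) one_ne_zero
    · exact fun z w => h w z
  · obtain ⟨b, hb, hbz⟩ := hz
    have hmz : Mem V I (u z) (x z) := hmem.self_of_nhds
    obtain ⟨c, hc⟩ : ∃ c, eval (x z) (F c) ≠ 0 := by
      by_contra hcon
      push Not at hcon
      apply hmz.2.1
      exact (hΦ ℂ _ hF.2).ncz (x z) hmz.2.2.1 fun i => by
        rw [fv_eq hF.1]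
        exact hcon i
    refine ⟨b, hb, ?_⟩
    obtain ⟨R, S, hS, hRS⟩ := hroot b c (u z) (x z) hmz hc
    have hle : m₀ * d c ≤ m := by
      refine le_trans (Nat.mul_le_mul_left _ ?_) hm
      exact Finset.single_le_sum (f := d) (fun _ _ => Nat.zero_le _) (Finset.mem_univ c)
    have hSn : ∃ᶠ w in 𝓝[≠] z, at' S (u w) (x w) ≠ 0 :=
      (((an_at hu hx S).continuousAt.eventually_ne hS).filter_mono nhdsWithin_le_nhds).frequently
    have hFn : ∃ᶠ w in 𝓝[≠] z, eval (x w) (F b) ≠ 0 := by
      rcases (an_form hx (F b)).eventually_eq_zero_or_eventually_ne_zero with h | h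
      · exact absurd h hb
      · exact h.frequently
    exact Run7.h493.TS.order_ge (a := d b) (an_at hu hx R) (an_at hu hx S) (an_form hx (F b))
      (an_form hx (F c)) hSn hFn (hmem.mono fun w hw => hRS _ _ hw) hbz hc (hd.1 c) hle

end Pool.Agent.Results.MP_b9fedf_ag.FibreSpaces
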