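import Pool.Agent.Run7.h418.Tor2
import Pool.Agent.Run7.h418.Z.Thm

/-!
MP_b9fedf_ag, Q1: entire curves and complex tori in the projective varieties with an immersive family
of symmetric differentials.

This puts together, for the present problem, the theorems `MP_45e720_ag.SymmetricDifferentials` and
`MP_2a5ae2_ag.BrodyCurvesAndTori` of helper418 (this run), with the modules `Run7/h418`.
-/

set_option autoImplicit false

open Pool.Agent.W602.GT Pool.Agent.N155 Pool.Agent.TH182.TC Run7.h418 Run7.h418.Z

namespace Pool.Agent.Results.MP_b9fedf_ag.SymmetricDifferentials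

/-- Let `X = {F = 0}` be a complex projective variety with an immersive finite family of symmetric
differentials `σ j` of positive degrees `m j`.

(1) Every holomorphic map from the complex plane to `X` is constant if and only if every holomorphic
map from a complex torus to `X` is constant.

(2) If this is not the case, there is even a holomorphic immersion of a complex torus of positive
dimension into `X`.

(3) Every nonconstant holomorphic map `p` from the complex plane to `X` of bounded derivative comes
from tori: there is a holomorphic immersion `g` of a complex torus of dimension `w > 0` into the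
Zariski closure `Y` of `p`, such that `p z = g (z d)` for some vector `d`; the dimension of `Y` is
`w`, and `Y` is not of general type. -/
theorem result {n : ℕ} {ι κ : Type} [Finite κ] {F : ι → MvPolynomial (Fin (n + 1)) ℂ}
    (hF : ∀ i, IsForm (F i)) {m : κ → ℕ} (hm : ∀ j, 0 < m j)
    {σ : κ → (Fin (n + 1) → ℂ) → (Fin (n + 1) → ℂ) → ℂ} (hσ : ∀ j, SymForm F (m j) (σ j))
    (him : Immersive F σ) :
    (BrodyHyperbolic F ↔ TorusRigid F) ∧ (¬ BrodyHyperbolic F → ImmersedTorus F) ∧
    ∀ p : ℂ → PS n, HolMap p → (∀ z, OnX F (p z)) → BoundedDer p → (∃ z w, p z ≠ p w) →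
      ∃ w : ℕ, 0 < w ∧ InTorus F p w ∧
        (∃ (K : Type) (_ : Field K) (_ : Algebra ℂ K) (y : Fin (n + 1) → K),
          IsClosure F p K w y) ∧
        ∀ (K : Type) [Field K] [Algebra ℂ K] (w' : ℕ) (y : Fin (n + 1) → K),
          IsClosure F p K w' y → w' = w ∧ ¬ GeneralType ℂ K w := by
  have h1 : ¬ BrodyHyperbolic F → ImmersedTorus F := torus_of_not_brody hF hm hσ him
  refine ⟨⟨rigid_of_brody, fun h => ?_⟩, h1, fun p hp hpF hb hne =>
    thm_torus hF hm hσ him hp (fun z => mem_cone.2 ⟨(p z).rep_nonzero, hpF z⟩) hb hne⟩
  by_contra hB
  exact not_rigid_of_torus (h1 hB) h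

end Pool.Agent.Results.MP_b9fedf_ag.SymmetricDifferentials
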